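import Mathlib
import Pool.Agent.Y811.PC.Stm

set_option autoImplicit false

/-!
# The comparison argument in the coordinate `T = 1 / s`
-/

namespace Pool.Agent.Y350.PC

open Complex Metric Set Filter Topology Pool.Agent.H712R2 Pool.Agent.H713R2 N62a1eb23
open Pool.Agent.Y736.HL Pool.Agent.Y736.ML Pool.Agent.Y811.PC

/-- the orbit in steps of `m` -/
lemma P_succ (d m N₀ k : ℕ) (c : ℂ) :
    P d (N₀ + m * (k + 1)) c = G d m c (P d (N₀ + m * k) c) := by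
  have h : N₀ + m * (k + 1) = m + (N₀ + m * k) := by ring
  rw [h]
  unfold P G
  rw [Function.iterate_add_apply]

/-- `b` is bounded from below near `(c₀, z₀)` -/
lemma b_lower {d m q : ℕ} {c₀ z₀ : ℂ} {s : ℂ → ℂ → ℂ → ℂ} {b : ℂ → ℂ → ℂ} {ρ ε C : ℝ}
    (hNF : NF d m q c₀ z₀ s b ρ ε C) (hb : b c₀ z₀ ≠ 0) :
    ∃ ε' : ℝ, 0 < ε' ∧ ε' ≤ ε ∧ ∀ c ∈ ball c₀ ε', ∀ α ∈ ball z₀ ε',
      ‖b c₀ z₀‖ / 2 ≤ ‖b c α‖ := by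
  have hpos : 0 < ‖b c₀ z₀‖ := norm_pos_iff.2 hb
  have hmem : (c₀, z₀) ∈ ball c₀ ε ×ˢ ball z₀ ε :=
    ⟨mem_ball_self hNF.hε, mem_ball_self hNF.hε⟩
  have hnh : ball c₀ ε ×ˢ ball z₀ ε ∈ 𝓝 (c₀, z₀) :=
    prod_mem_nhds (ball_mem_nhds _ hNF.hε) (ball_mem_nhds _ hNF.hε)
  have hca : ContinuousAt (fun p : ℂ × ℂ => b p.1 p.2) (c₀, z₀) :=
    hNF.cont.continuousAt hnh
  have hcn : ContinuousAt (fun p : ℂ × ℂ => ‖b p.1 p.2‖) (c₀, z₀) := hca.norm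
  have hev : ∀ᶠ p : ℂ × ℂ in 𝓝 (c₀, z₀), ‖b c₀ z₀‖ / 2 < ‖b p.1 p.2‖ :=
    hcn.eventually (lt_mem_nhds (by simpa using (by linarith : ‖b c₀ z₀‖ / 2 < ‖b c₀ z₀‖)))
  obtain ⟨e, he, hsub⟩ := Metric.eventually_nhds_iff.1 hev
  refine ⟨min e ε, lt_min he hNF.hε, min_le_right _ _, ?_⟩
  intro c hc α hα
  have h1 : dist (c, α) (c₀, z₀) < e := by
    rw [Prod.dist_eq]
    exact max_lt (lt_of_lt_of_le hc (min_le_left _ _)) (lt_of_lt_of_le hα (min_le_left _ _))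
  exact (hsub h1).le

/-- size of `u` from the size of `T` -/
lemma size_u {d m q : ℕ} {c₀ z₀ : ℂ} {s : ℂ → ℂ → ℂ → ℂ} {b : ℂ → ℂ → ℂ} {ρ ε C : ℝ}
    (hNF : NF d m q c₀ z₀ s b ρ ε C) {c α : ℂ} (hc : c ∈ ball c₀ ε) (hα : α ∈ ball z₀ ε)
    {u : ℂ} (hu : ‖u‖ ≤ 2 * ρ) {H : ℝ} (hH : 0 < H) (hT : H ≤ ‖(s c α u)⁻¹‖) :
    ‖u‖ ^ q ≤ 2 / H := by
  have h1 := (hNF.size c hc α hα u hu).1
  rw [norm_inv] at hT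
  have hs : 0 < ‖s c α u‖ := by
    by_contra hcon
    have h0 : ‖s c α u‖ = 0 := le_antisymm (not_lt.1 hcon) (norm_nonneg _)
    rw [h0, inv_zero] at hT
    linarith
  have h2 : ‖s c α u‖ ≤ H⁻¹ := by
    rw [← inv_inv ‖s c α u‖]
    exact inv_anti₀ hH hT
  have h3 : 2 / H = 2 * H⁻¹ := by ring
  rw [h3]
  linarith

/-- the comparison argument -/
lemma core (h1 : S_BOOT) {d m q : ℕ} {c₀ z₀ : ℂ} {s : ℂ → ℂ → ℂ → ℂ} {b : ℂ → ℂ → ℂ}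
    {ρ ε C : ℝ} {N₀ : ℕ} (hNF : NF d m q c₀ z₀ s b ρ ε C) {c α : ℂ} (hc : c ∈ ball c₀ ε)
    (hα : α ∈ ball z₀ ε) (hfix : G d m c α = α) (n k₀ : ℕ) (h e : ℕ → ℝ) (K : ℝ)
    (hL : ∀ j, j ≤ n → ‖Lq d m q c α‖ ^ j ≤ K) (he : ∀ j, 0 ≤ e j) (hk : k₀ ≤ n)
    (hu0 : P d (N₀ + m * k₀) c - α ≠ 0) (hu1 : ‖P d (N₀ + m * k₀) c - α‖ ≤ ρ)
    (hpos : ∀ k, k₀ ≤ k → k ≤ n → 0 < h k)
    (hρ : ∀ k, k₀ ≤ k → k ≤ n → ∀ x : ℝ, 0 ≤ x → x ^ q ≤ 2 / h k → x ≤ ρ)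
    (hC : ∀ k, k₀ ≤ k → k < n → ∀ x : ℝ, 0 ≤ x → x ^ q ≤ 2 / h k → C * x ≤ e k)
    (hprof : ∀ k, k₀ ≤ k → k ≤ n → h k + K * (‖(s c α (P d (N₀ + m * k₀) c - α))⁻¹ +
      b c α * gs (Lq d m q c α) k₀‖ + ∑ j ∈ Finset.Ico k₀ k, e j) ≤
        ‖b c α * gs (Lq d m q c α) k‖) :
    P d (N₀ + m * n) c - α ≠ 0 ∧ ‖P d (N₀ + m * n) c - α‖ ≤ ρ ∧
      ‖(s c α (P d (N₀ + m * n) c - α))⁻¹ + b c α * gs (Lq d m q c α) n‖ ≤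
        K * (‖(s c α (P d (N₀ + m * k₀) c - α))⁻¹ + b c α * gs (Lq d m q c α) k₀‖ +
          ∑ j ∈ Finset.Ico k₀ n, e j) := by
  have key := h1 n k₀ (fun k => (s c α (P d (N₀ + m * k) c - α))⁻¹) (Lq d m q c α) (b c α) K h e
    (fun k => P d (N₀ + m * k) c - α ≠ 0 ∧ ‖P d (N₀ + m * k) c - α‖ ≤ ρ) hL he hk ⟨hu0, hu1⟩
    ?_ hprof n hk le_rfl
  · exact ⟨key.1.1, key.1.2, key.2.2⟩
  · rintro k hk1 hk2 ⟨hg1, hg2⟩ hT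
    obtain ⟨g1, g2, g3⟩ := hNF.step c hc α hα hfix (P d (N₀ + m * k) c - α) hg1 hg2
    have hpk : α + (P d (N₀ + m * k) c - α) = P d (N₀ + m * k) c := by ring
    rw [hpk, ← P_succ] at g1 g2 g3
    have hρ0 := hNF.hρ
    have hsz : ‖P d (N₀ + m * k) c - α‖ ^ q ≤ 2 / h k :=
      size_u hNF hc hα (by linarith) (hpos k hk1 hk2.le) hT
    refine ⟨g3.trans (hC k hk1 hk2 _ (norm_nonneg _) hsz), ?_⟩
    intro hT'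
    refine ⟨sub_ne_zero.2 g2, ?_⟩
    have hsz' : ‖P d (N₀ + m * (k + 1)) c - α‖ ^ q ≤ 2 / h (k + 1) :=
      size_u hNF hc hα (by linarith) (hpos (k + 1) (by omega) (by omega)) hT'
    exact hρ (k + 1) (by omega) (by omega) _ (norm_nonneg _) hsz'

/-- powers of `L` -/
lemma pow_L {L : ℂ} {n : ℕ} {A : ℝ} (h : n * ‖1 - L‖ ≤ A) : ∀ j, j ≤ n → ‖L‖ ^ j ≤ Real.exp A := by
  intro j hj
  have h1 : ‖L‖ ≤ 1 + ‖1 - L‖ := by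
    calc ‖L‖ = ‖1 - (1 - L)‖ := by ring_nf
      _ ≤ ‖(1 : ℂ)‖ + ‖1 - L‖ := norm_sub_le _ _
      _ = 1 + ‖1 - L‖ := by simp
  have h2 : ‖L‖ ≤ Real.exp ‖1 - L‖ := by
    have := Real.add_one_le_exp ‖1 - L‖
    linarith
  calc ‖L‖ ^ j ≤ (Real.exp ‖1 - L‖) ^ j := by gcongr
    _ = Real.exp (j * ‖1 - L‖) := by rw [← Real.exp_nat_mul]
    _ ≤ Real.exp A := by
        apply Real.exp_le_exp.2
        have : (j : ℝ) * ‖1 - L‖ ≤ n * ‖1 - L‖ := by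
          have : (j : ℝ) ≤ n := by exact_mod_cast hj
          gcongr
        linarith

/-- a starting time after which `2 / (c₂ k)` is small -/
lemma exists_K₁ {c₂ t : ℝ} (hc₂ : 0 < c₂) (ht : 0 < t) :
    ∃ K₁ : ℕ, 1 ≤ K₁ ∧ ∀ k : ℕ, K₁ ≤ k → 2 / (c₂ * k) ≤ t := by
  obtain ⟨K₁, hK₁⟩ := exists_nat_ge (2 / (c₂ * t))
  refine ⟨K₁ + 1, by omega, ?_⟩
  intro k hk
  have hkr : (K₁ : ℝ) + 1 ≤ k := by exact_mod_cast hk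
  have hk0 : (0 : ℝ) < k := by
    have : (0 : ℝ) ≤ K₁ := Nat.cast_nonneg _
    linarith
  have h2 : 2 / (c₂ * t) ≤ k := by linarith
  rw [div_le_iff₀ (by positivity)] at h2 ⊢
  linarith [mul_comm c₂ (t * k), mul_comm (k : ℝ) (c₂ * t)]

end Pool.Agent.Y350.PC
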