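import Mathlib
import Pool.Agent.Y350.PC.Core

set_option autoImplicit false

/-!
# The orbit on the boundary of the rectangle
-/

namespace Pool.Agent.Y350.PC

open Complex Metric Set Filter Topology Pool.Agent.H712R2 Pool.Agent.H713R2 N62a1eb23
open Pool.Agent.Y736.HL Pool.Agent.Y736.ML Pool.Agent.Y811.PC

/-- the distance to the top point on the boundary of the rectangle -/
lemma xi_le {δ : ℝ} (hδ : 0 < δ) (hδ1 : δ < 1) {x : ℂ} (hx : x ∈ Bd δ) : xi δ x ≤ 3 := by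
  obtain ⟨h1, h2, _⟩ := hx
  unfold xi
  have h3 := Complex.norm_le_abs_re_add_abs_im (x - ((2 * Real.pi + δ : ℝ) : ℂ) * I)
  have h4 : (x - ((2 * Real.pi + δ : ℝ) : ℂ) * I).re = x.re := by
    simp [Complex.sub_re, Complex.mul_re]
  have h5 : (x - ((2 * Real.pi + δ : ℝ) : ℂ) * I).im = x.im - 2 * Real.pi - δ := by
    simp only [Complex.sub_im, Complex.mul_im, Complex.ofReal_re, Complex.ofReal_im,
      Complex.I_re, Complex.I_im]
    ring
  rw [h4, h5] at h3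
  have h6 : |x.im - 2 * Real.pi - δ| ≤ 2 * δ := by
    rw [abs_le] at h2 ⊢
    constructor <;> linarith [h2.1, h2.2]
  linarith

/-- points of the boundary are bounded -/
lemma norm_Bd {δ : ℝ} (_hδ : 0 < δ) (hδ1 : δ < 1) {x : ℂ} (hx : x ∈ Bd δ) : ‖x‖ ≤ 9 := by
  obtain ⟨h1, h2, _⟩ := hx
  have h3 := Complex.norm_le_abs_re_add_abs_im x
  have hpi := Real.pi_lt_d2
  have h6 : |x.im| ≤ 2 * Real.pi + δ := by
    rw [abs_le] at h2 ⊢
    have := Real.pi_pos
    constructor <;> linarith [h2.1, h2.2]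
  linarith

/-- the scale `ν = n ^ (-1 / (4 q))` -/
lemma scale {q n : ℕ} (hq : 1 ≤ q) (hn : 1 ≤ n) :
    ∃ ν : ℝ, 0 < ν ∧ ν ≤ 1 ∧ n * ν ^ (4 * q) = 1 := by
  have hnr : (1 : ℝ) ≤ n := by exact_mod_cast hn
  have hn0 : (0 : ℝ) < n := by linarith
  have h1 : ((n : ℝ)⁻¹ ^ (((4 * q : ℕ) : ℝ)⁻¹)) ^ (4 * q) = (n : ℝ)⁻¹ :=
    Real.rpow_inv_natCast_pow (by positivity) (by omega)
  refine ⟨(n : ℝ)⁻¹ ^ (((4 * q : ℕ) : ℝ)⁻¹), by positivity, ?_, ?_⟩
  · exact Real.rpow_le_one (by positivity) (inv_le_one_of_one_le₀ hnr) (by positivity)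
  · rw [h1]; exact mul_inv_cancel₀ hn0.ne'

/-- `ν` is small when `n` is large -/
lemma scale_small {q n : ℕ} {ν ν₀ : ℝ} (hq : 1 ≤ q) (hν : 0 < ν) (hν₀ : 0 < ν₀)
    (h : n * ν ^ (4 * q) = 1) (hn : (ν₀ ^ (4 * q))⁻¹ ≤ n) : ν ≤ ν₀ := by
  by_contra hcon
  push Not at hcon
  have h1 : ν₀ ^ (4 * q) < ν ^ (4 * q) := pow_lt_pow_left₀ hcon hν₀.le (by omega)
  have h2 : 0 < ν₀ ^ (4 * q) := by positivity
  have h3 : (ν₀ ^ (4 * q))⁻¹ * ν₀ ^ (4 * q) ≤ n * ν₀ ^ (4 * q) := by gcongr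
  rw [inv_mul_cancel₀ h2.ne'] at h3
  have hn0 : (0 : ℝ) < n := lt_of_lt_of_le (by positivity) hn
  have h4 : (n : ℝ) * ν₀ ^ (4 * q) < n * ν ^ (4 * q) := mul_lt_mul_of_pos_left h1 hn0
  linarith

/-- the size estimate in the late phase -/
lemma late_size {q n : ℕ} {ν D A x : ℝ} (hq : 1 ≤ q) (hν : 0 < ν) (hν1 : ν ≤ 1)
    (h : n * ν ^ (4 * q) = 1) (hD : 1 ≤ D) (hA : 0 ≤ A) (hAD : A ≤ D) (hx : 0 ≤ x)
    (hxq : x ^ q ≤ A / (n * ν ^ 2)) : x ≤ D * ν ^ 2 := by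
  have hn0 : (0 : ℝ) < n := by
    by_contra hcon
    have : (n : ℝ) = 0 := le_antisymm (not_lt.1 hcon) (Nat.cast_nonneg _)
    rw [this] at h
    simp at h
  have h1 : A / (n * ν ^ 2) = A * ν ^ (4 * q - 2) := by
    rw [div_eq_iff (by positivity)]
    have h2 : ν ^ (4 * q - 2) * ν ^ 2 = ν ^ (4 * q) := by
      rw [← pow_add]; congr 1; omega
    calc A = A * (n * ν ^ (4 * q)) := by rw [h, mul_one]
      _ = A * ν ^ (4 * q - 2) * (n * ν ^ 2) := by rw [← h2]; ring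
  rw [h1] at hxq
  have h3 : A * ν ^ (4 * q - 2) ≤ (D * ν ^ 2) ^ q := by
    rw [mul_pow, ← pow_mul]
    have h4 : A ≤ D ^ q := hAD.trans (le_self_pow₀ hD (by omega))
    have h5 : ν ^ (4 * q - 2) ≤ ν ^ (2 * q) :=
      pow_le_pow_of_le_one hν.le hν1 (by omega)
    gcongr
  exact (pow_le_pow_iff_left₀ hx (by positivity) (by omega)).1 (hxq.trans h3)

/-- the sum of the errors -/
lemma sum_err {k₀ k n : ℕ} {A B t : ℝ} (hA : 0 ≤ A) (hB : 0 ≤ B) (ht : 0 ≤ t) (hk : k ≤ n) :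
    ∑ j ∈ Finset.Ico k₀ k, (if (j : ℝ) < t then A else B) ≤ (t + 1) * A + n * B := by
  have h1 : ∑ j ∈ Finset.Ico k₀ k, (if (j : ℝ) < t then A else B) ≤
      ∑ j ∈ Finset.range n, (if (j : ℝ) < t then A else B) := by
    apply Finset.sum_le_sum_of_subset_of_nonneg
    · intro j hj
      rw [Finset.mem_Ico] at hj
      rw [Finset.mem_range]
      omega
    · intro j _ _
      split_ifs <;> assumption
  have h2 : ∀ j ∈ Finset.range n, (if (j : ℝ) < t then A else B) ≤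
      (if (j : ℝ) < t then A else 0) + B := by
    intro j _
    split_ifs <;> linarith
  have h3 := Finset.sum_le_sum h2
  rw [Finset.sum_add_distrib, Finset.sum_const, Finset.card_range, nsmul_eq_mul] at h3
  have h4 : ∑ j ∈ Finset.range n, (if (j : ℝ) < t then A else 0) ≤ (t + 1) * A := by
    rw [← Finset.sum_filter, Finset.sum_const, nsmul_eq_mul]
    have h5 : (((Finset.range n).filter (fun j : ℕ => (j : ℝ) < t)).card : ℝ) ≤ t + 1 := by
      have h6 : (Finset.range n).filter (fun j : ℕ => (j : ℝ) < t) ⊆ Finset.range ⌈t⌉₊ := by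
        intro j hj
        rw [Finset.mem_filter] at hj
        rw [Finset.mem_range]
        exact Nat.lt_ceil.2 hj.2
      have h7 := Finset.card_le_card h6
      rw [Finset.card_range] at h7
      have h8 : ((⌈t⌉₊ : ℕ) : ℝ) < t + 1 := Nat.ceil_lt_add_one ht
      have h9 : (((Finset.range n).filter (fun j : ℕ => (j : ℝ) < t)).card : ℝ) ≤ (⌈t⌉₊ : ℕ) := by
        exact_mod_cast h7
      linarith
    gcongr
  linarith

theorem t_EDGE (h1 : S_BOOT) (h2 : S_GEOM2) (h3 : S_INIT) (_hA : S_ANA) : S_EDGE := by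
  intro d m q c₀ z₀ s b ρ ε C N₀ hPD hNF hb hOrb δ hδ hδ1
  obtain ⟨c₁, C₁, n₂, hc₁, hC₁, hgeom⟩ := h2 δ hδ hδ1
  obtain ⟨εb, hεb, hεbε, hblow⟩ := b_lower hNF hb
  have hb0 : 0 < ‖b c₀ z₀‖ := norm_pos_iff.2 hb
  set K : ℝ := Real.exp 9 with hKdef
  have hK : 0 < K := Real.exp_pos _
  set c₂ : ℝ := ‖b c₀ z₀‖ * c₁ / 8 with hc₂def
  have hc₂ : 0 < c₂ := by positivity
  set η : ℝ := c₂ / K with hηdef
  have hη : 0 < η := by positivity
  have hKη : K * η = c₂ := by rw [hηdef]; field_simp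
  have hC := hNF.hC
  have hρ := hNF.hρ
  set r' : ℝ := min ρ (η / (C + 1)) with hr'def
  have hr' : 0 < r' := lt_min hρ (by positivity)
  have hr'ρ : r' ≤ ρ := min_le_left _ _
  have hCr' : C * r' ≤ η := by
    have h : r' ≤ η / (C + 1) := min_le_right _ _
    rw [le_div_iff₀ (by positivity)] at h
    nlinarith
  have hq : 1 ≤ q := hPD.hq
  obtain ⟨K₁, hK₁1, hK₁⟩ := exists_K₁ hc₂ (pow_pos hr' q)
  obtain ⟨k₀, ε₁, hk₀, hε₁, hε₁ε, hinit⟩ := h3 d m q c₀ z₀ s b ρ ε C N₀ hPD hNF hOrb η K₁ hη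
  set D : ℝ := max 1 (6 / c₂) with hDdef
  have hD1 : 1 ≤ D := le_max_left _ _
  have hDc : 6 / c₂ ≤ D := le_max_right _ _
  have hD0 : 0 < D := by linarith
  set S : ℝ := η * k₀ + 2 * (C * r') + C * D + 1 with hSdef
  have hS : 0 < S := by positivity
  set ν₀ : ℝ := min (min (r' / D) (c₂ / (K * S))) (1 / C₁) with hν₀def
  have hν₀ : 0 < ν₀ := lt_min (lt_min (by positivity) (by positivity)) (by positivity)
  obtain ⟨n₃, hn₃⟩ := exists_nat_ge ((ν₀ ^ (4 * q))⁻¹)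
  refine ⟨min εb ε₁, 1 / c₂, max (max k₀ n₂) (max 1 n₃), lt_min hεb hε₁,
    (min_le_right _ _).trans hε₁ε, by positivity, ?_⟩
  intro c hc α hα hfix n hn x hx hxi hLx
  have hcb : c ∈ ball c₀ εb := ball_subset_ball (min_le_left _ _) hc
  have hαb : α ∈ ball z₀ εb := ball_subset_ball (min_le_left _ _) hα
  have hc1 : c ∈ ball c₀ ε₁ := ball_subset_ball (min_le_right _ _) hc
  have hα1 : α ∈ ball z₀ ε₁ := ball_subset_ball (min_le_right _ _) hα
  have hcε : c ∈ ball c₀ ε := ball_subset_ball hε₁ε hc1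
  have hαε : α ∈ ball z₀ ε := ball_subset_ball hε₁ε hα1
  obtain ⟨hu0, hu1, hini⟩ := hinit c hc1 α hα1
  have hk₀n : k₀ ≤ n := le_trans (le_trans (le_max_left _ _) (le_max_left _ _)) hn
  have hn₂n : n₂ ≤ n := le_trans (le_trans (le_max_right _ _) (le_max_left _ _)) hn
  have hn1 : 1 ≤ n := le_trans (le_trans (le_max_left _ _) (le_max_right _ _)) hn
  have hn₃n : n₃ ≤ n := le_trans (le_trans (le_max_right _ _) (le_max_right _ _)) hn
  have hnr : (1 : ℝ) ≤ n := by exact_mod_cast hn1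
  have hn0 : (0 : ℝ) < n := by linarith
  obtain ⟨ν, hν, hν1, hνn⟩ := scale (n := n) hq hn1
  have hνν₀ : ν ≤ ν₀ := scale_small hq hν hν₀ hνn (hn₃.trans (by exact_mod_cast hn₃n))
  have hν_a : ν ≤ r' / D := hνν₀.trans ((min_le_left _ _).trans (min_le_left _ _))
  have hν_b : ν ≤ c₂ / (K * S) := hνν₀.trans ((min_le_left _ _).trans (min_le_right _ _))
  have hν_c : ν ≤ 1 / C₁ := hνν₀.trans (min_le_right _ _)
  have hν2 : ν ^ 2 ≤ ν := by
    calc ν ^ 2 = ν * ν := sq ν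
      _ ≤ ν * 1 := by gcongr
      _ = ν := mul_one ν
  have hDν : D * ν ^ 2 ≤ r' := by
    rw [le_div_iff₀ hD0] at hν_a
    calc D * ν ^ 2 ≤ D * ν := by gcongr
      _ = ν * D := mul_comm _ _
      _ ≤ r' := hν_a
  -- `n ν ^ 2 ≥ 1`
  have hnν2 : 1 ≤ n * ν ^ 2 := by
    calc (1 : ℝ) = n * ν ^ (4 * q) := hνn.symm
      _ ≤ n * ν ^ 2 := by
        have : ν ^ (4 * q) ≤ ν ^ 2 := pow_le_pow_of_le_one hν.le hν1 (by omega)
        gcongr
  -- `ν ≤ ξ`
  have hxi0 : 0 ≤ xi δ x := norm_nonneg _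
  have hνxi : ν ≤ xi δ x := by
    by_contra hcon
    push Not at hcon
    have h4 : xi δ x ^ (4 * q) < ν ^ (4 * q) := pow_lt_pow_left₀ hcon hxi0 (by omega)
    have h5 : (n : ℝ) * xi δ x ^ (4 * q) < n * ν ^ (4 * q) := mul_lt_mul_of_pos_left h4 hn0
    linarith
  have hxipos : 0 < xi δ x := lt_of_lt_of_le hν hνxi
  have hxi3 := xi_le hδ hδ1 hx
  have hC₁n : C₁ ≤ n * xi δ x := by
    have h6 : C₁ * ν ≤ 1 := by
      rw [le_div_iff₀ hC₁] at hν_c
      linarith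
    have h7 : C₁ * ν ≤ (n * ν) * ν := by
      calc C₁ * ν ≤ 1 := h6
        _ ≤ n * ν ^ 2 := hnν2
        _ = (n * ν) * ν := by ring
    have h8 : C₁ ≤ n * ν := le_of_mul_le_mul_right h7 hν
    have h9 : (n : ℝ) * ν ≤ n * xi δ x := by gcongr
    linarith
  -- powers of `L`
  have hbnd : (n : ℝ) * ‖1 - Lq d m q c α‖ ≤ 9 := by
    rw [hLx, norm_div, Complex.norm_natCast, mul_div_cancel₀ _ hn0.ne']
    exact norm_Bd hδ hδ1 hx
  have hLL : Lq d m q c α = 1 - x / n := by rw [← hLx]; ring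
  obtain ⟨hg1, hg2, hg3⟩ := hgeom n hn₂n x hx
  rw [← hLL] at hg1 hg2 hg3
  have hbb := hblow c hcb α hαb
  have hgs1 : ∀ k : ℕ, 2 * k ≤ n → 4 * (c₂ * k) ≤ ‖b c α * gs (Lq d m q c α) k‖ := by
    intro k hk
    rw [norm_mul]
    have h10 := hg1 k hk
    calc 4 * (c₂ * k) = ‖b c₀ z₀‖ / 2 * (c₁ * k) := by rw [hc₂def]; ring
      _ ≤ ‖b c α‖ * ‖gs (Lq d m q c α) k‖ := by gcongr
  have hgs2 : ∀ k : ℕ, n ≤ 2 * k → k ≤ n →
      4 * (c₂ * (n * xi δ x)) ≤ ‖b c α * gs (Lq d m q c α) k‖ := by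
    intro k hk hkn
    rw [norm_mul]
    have h10 := hg2 k hk hkn hC₁n
    calc 4 * (c₂ * (n * xi δ x)) = ‖b c₀ z₀‖ / 2 * (c₁ * n * xi δ x) := by rw [hc₂def]; ring
      _ ≤ ‖b c α‖ * ‖gs (Lq d m q c α) k‖ := by gcongr
  have hgs3 : 4 * (c₂ * n) ≤ ‖b c α * gs (Lq d m q c α) n‖ := by
    rw [norm_mul]
    calc 4 * (c₂ * n) = ‖b c₀ z₀‖ / 2 * (c₁ * n) := by rw [hc₂def]; ring
      _ ≤ ‖b c α‖ * ‖gs (Lq d m q c α) n‖ := by gcongr
  have hkpos : ∀ k : ℕ, k₀ ≤ k → (0 : ℝ) < k := by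
    intro k hk
    have : 1 ≤ k := by omega
    exact_mod_cast this
  -- the profile and the errors
  set h : ℕ → ℝ := fun k => if 2 * k ≤ n then c₂ * k else c₂ * (n * xi δ x) / 3 with hhdef
  set e : ℕ → ℝ := fun k => if (k : ℝ) < n * ν ^ 2 then C * r' else C * (D * ν ^ 2) with hedef
  have hCD : C * (D * ν ^ 2) ≤ C * r' := by gcongr
  have he0 : ∀ j, 0 ≤ e j := by
    intro j
    simp only [hedef]
    split_ifs <;> positivity
  have heη : ∀ j, e j ≤ η := by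
    intro j
    simp only [hedef]
    split_ifs
    · exact hCr'
    · exact hCD.trans hCr'
  have hpos : ∀ k, k₀ ≤ k → k ≤ n → 0 < h k := by
    intro k hk _
    simp only [hhdef]
    split_ifs
    · exact mul_pos hc₂ (hkpos k hk)
    · positivity
  -- in the second half
  have hlate : ∀ k, ¬ (2 * k ≤ n) → ∀ x' : ℝ, 0 ≤ x' → x' ^ q ≤ 2 / h k → x' ≤ D * ν ^ 2 := by
    intro k hk x' hx' hxq
    simp only [hhdef, if_neg hk] at hxq
    have h11 : 2 / (c₂ * (n * xi δ x) / 3) ≤ (6 / c₂) / (n * ν ^ 2) := by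
      have h12 : 2 / (c₂ * (n * xi δ x) / 3) = 6 / (c₂ * (n * xi δ x)) := by
        field_simp
        norm_num
      have h13 : (6 / c₂) / (n * ν ^ 2) = 6 / (c₂ * (n * ν ^ 2)) := by
        field_simp
      rw [h12, h13]
      apply div_le_div_of_nonneg_left (by norm_num) (by positivity)
      have : ν ^ 2 ≤ xi δ x := hν2.trans hνxi
      gcongr
    exact late_size hq hν hν1 hνn hD1 (by positivity) hDc hx' (hxq.trans h11)
  have hearly : ∀ k, k₀ ≤ k → 2 * k ≤ n → ∀ x' : ℝ, 0 ≤ x' → x' ^ q ≤ 2 / h k → x' ≤ r' := by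
    intro k hk hk2 x' hx' hxq
    simp only [hhdef, if_pos hk2] at hxq
    have h8 : x' ^ q ≤ r' ^ q := hxq.trans (hK₁ k (hk₀.trans hk))
    exact (pow_le_pow_iff_left₀ hx' hr'.le (by omega)).1 h8
  -- the total error
  have htot : ∀ k, k ≤ n → K * (‖(s c α (P d (N₀ + m * k₀) c - α))⁻¹ +
      b c α * gs (Lq d m q c α) k₀‖ + ∑ j ∈ Finset.Ico k₀ k, e j) ≤ c₂ * (n * xi δ x) := by
    intro k hkn
    have hsum := sum_err (k₀ := k₀) (k := k) (n := n) (A := C * r') (B := C * (D * ν ^ 2))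
      (t := n * ν ^ 2) (by positivity) (by positivity) (by positivity) hkn
    have hCr0 : 0 ≤ C * r' := by positivity
    have h20 : ((n : ℝ) * ν ^ 2 + 1) * (C * r') ≤ (n * ν ^ 2) * (2 * (C * r')) := by
      calc ((n : ℝ) * ν ^ 2 + 1) * (C * r') ≤ (n * ν ^ 2 + n * ν ^ 2) * (C * r') := by gcongr
        _ = (n * ν ^ 2) * (2 * (C * r')) := by ring
    have h21 : η * k₀ ≤ (n * ν ^ 2) * (η * k₀) := by
      calc η * k₀ = 1 * (η * k₀) := (one_mul _).symm
        _ ≤ (n * ν ^ 2) * (η * k₀) := by gcongr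
    have h22 : ‖(s c α (P d (N₀ + m * k₀) c - α))⁻¹ +
        b c α * gs (Lq d m q c α) k₀‖ + ∑ j ∈ Finset.Ico k₀ k, e j ≤ (n * ν ^ 2) * S := by
      have h23 : (n : ℝ) * (C * (D * ν ^ 2)) = (n * ν ^ 2) * (C * D) := by ring
      have h24 : (n * ν ^ 2) * S = (n * ν ^ 2) * (η * k₀) + (n * ν ^ 2) * (2 * (C * r')) +
          (n * ν ^ 2) * (C * D) + n * ν ^ 2 := by rw [hSdef]; ring
      have h25 : 0 ≤ (n : ℝ) * ν ^ 2 := by positivity
      linarith
    have h26 : K * S * ν ≤ c₂ := by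
      rw [le_div_iff₀ (by positivity)] at hν_b
      linarith
    calc K * (‖(s c α (P d (N₀ + m * k₀) c - α))⁻¹ +
          b c α * gs (Lq d m q c α) k₀‖ + ∑ j ∈ Finset.Ico k₀ k, e j) ≤
          K * ((n * ν ^ 2) * S) := by gcongr
      _ = (K * S * ν) * (n * ν) := by ring
      _ ≤ c₂ * (n * ν) := by gcongr
      _ ≤ c₂ * (n * xi δ x) := by gcongr
  have hres := core h1 hNF hcε hαε hfix n k₀ h e K
    (pow_L hbnd) he0 hk₀n hu0 hu1 hpos ?_ ?_ ?_
  · -- the conclusion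
    obtain ⟨_, hun, hT⟩ := hres
    have h30 := hT.trans (htot n le_rfl)
    have h31 : c₂ * (n * xi δ x) ≤ 3 * (c₂ * n) := by
      have : c₂ * (n * xi δ x) ≤ c₂ * (n * 3) := by gcongr
      linarith
    have h32 : c₂ * n ≤ ‖(s c α (P d (N₀ + m * n) c - α))⁻¹‖ := by
      have h33 : ‖b c α * gs (Lq d m q c α) n‖ ≤
          ‖(s c α (P d (N₀ + m * n) c - α))⁻¹ + b c α * gs (Lq d m q c α) n‖ +
            ‖(s c α (P d (N₀ + m * n) c - α))⁻¹‖ := by
        calc ‖b c α * gs (Lq d m q c α) n‖ =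
            ‖((s c α (P d (N₀ + m * n) c - α))⁻¹ + b c α * gs (Lq d m q c α) n) -
              (s c α (P d (N₀ + m * n) c - α))⁻¹‖ := by congr 1; ring
          _ ≤ _ := norm_sub_le _ _
      linarith
    have h34 : 0 < c₂ * n := by positivity
    rw [norm_inv] at h32
    have h35 : ‖s c α (P d (N₀ + m * n) c - α)‖ ≤ (c₂ * n)⁻¹ := by
      rw [← inv_inv ‖s c α (P d (N₀ + m * n) c - α)‖]
      exact inv_anti₀ h34 h32
    calc (n : ℝ) * ‖s c α (P d (N₀ + m * n) c - α)‖ ≤ n * (c₂ * n)⁻¹ := by gcongr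
      _ = 1 / c₂ := by field_simp
  · -- `‖u‖ ≤ ρ`
    intro k hk hkn x' hx' hxq
    by_cases hk2 : 2 * k ≤ n
    · exact (hearly k hk hk2 x' hx' hxq).trans hr'ρ
    · exact ((hlate k hk2 x' hx' hxq).trans hDν).trans hr'ρ
  · -- the errors
    intro k hk hkn x' hx' hxq
    have h14 : x' ≤ D * ν ^ 2 ∨ ((k : ℝ) < n * ν ^ 2 ∧ x' ≤ r') := by
      by_cases hk2 : 2 * k ≤ n
      · by_cases hkν : (k : ℝ) < n * ν ^ 2
        · exact Or.inr ⟨hkν, hearly k hk hk2 x' hx' hxq⟩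
        · left
          push Not at hkν
          simp only [hhdef, if_pos hk2] at hxq
          have h15 : 2 / (c₂ * k) ≤ (2 / c₂) / (n * ν ^ 2) := by
            have h16 : (2 / c₂) / (n * ν ^ 2) = 2 / (c₂ * (n * ν ^ 2)) := by
              field_simp
            rw [h16]
            apply div_le_div_of_nonneg_left (by norm_num) (by positivity)
            gcongr
          have h17 : 2 / c₂ ≤ D := by
            refine le_trans ?_ hDc
            gcongr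
            norm_num
          exact late_size hq hν hν1 hνn hD1 (by positivity) h17 hx' (hxq.trans h15)
      · exact Or.inl (hlate k hk2 x' hx' hxq)
    simp only [hedef]
    rcases h14 with h14 | ⟨h14, h15⟩
    · split_ifs
      · have : C * x' ≤ C * (D * ν ^ 2) := by gcongr
        linarith
      · gcongr
    · rw [if_pos h14]
      gcongr
  · -- the profile
    intro k hk hkn
    by_cases hk2 : 2 * k ≤ n
    · have h40 : ∑ j ∈ Finset.Ico k₀ k, e j ≤ (k - k₀) * η := by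
        calc ∑ j ∈ Finset.Ico k₀ k, e j ≤ ∑ _j ∈ Finset.Ico k₀ k, η :=
              Finset.sum_le_sum (fun j _ => heη j)
          _ = (k - k₀) * η := by
              rw [Finset.sum_const, Nat.card_Ico, nsmul_eq_mul, Nat.cast_sub hk]
      have h41 : K * (‖(s c α (P d (N₀ + m * k₀) c - α))⁻¹ +
          b c α * gs (Lq d m q c α) k₀‖ + ∑ j ∈ Finset.Ico k₀ k, e j) ≤ K * (η * k) := by
        have : ‖(s c α (P d (N₀ + m * k₀) c - α))⁻¹ +
          b c α * gs (Lq d m q c α) k₀‖ + ∑ j ∈ Finset.Ico k₀ k, e j ≤ η * k := by linarith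
        gcongr
      have h42 : K * (η * k) = c₂ * k := by rw [← mul_assoc, hKη]
      have h43 := hgs1 k hk2
      have h44 : 0 < c₂ * k := mul_pos hc₂ (hkpos k hk)
      have h45 : h k = c₂ * k := by simp only [hhdef, if_pos hk2]
      rw [h45]
      linarith
    · have h43 := hgs2 k (by omega) hkn
      have h46 := htot k hkn
      have h45 : h k = c₂ * (n * xi δ x) / 3 := by simp only [hhdef, if_neg hk2]
      have h47 : 0 < c₂ * (n * xi δ x) := by positivity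
      rw [h45]
      linarith

end Pool.Agent.Y350.PC
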