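import Mathlib
import Pool.Agent.Y350.PC.Core

set_option autoImplicit false

/-!
# The orbit is bounded before the first return
-/

namespace Pool.Agent.Y350.PC

open Complex Metric Set Filter Topology Pool.Agent.H712R2 Pool.Agent.H713R2 N62a1eb23
open Pool.Agent.Y736.HL Pool.Agent.Y736.ML Pool.Agent.Y811.PC

theorem t_UPPER (h1 : S_BOOT) (h2 : S_GEOM) (h3 : S_INIT) (_hA : S_ANA) : S_UPPER := by
  intro d m q c₀ z₀ s b ρ ε C N₀ hPD hNF hb hOrb δ hδ
  obtain ⟨c₁, r₁, hc₁, hr₁, hgeom⟩ := h2 δ hδ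
  obtain ⟨εb, hεb, hεbε, hblow⟩ := b_lower hNF hb
  have hb0 : 0 < ‖b c₀ z₀‖ := norm_pos_iff.2 hb
  set K : ℝ := Real.exp (2 * Real.pi) with hKdef
  have hK : 0 < K := Real.exp_pos _
  set c₂ : ℝ := ‖b c₀ z₀‖ * c₁ / 4 with hc₂def
  have hc₂ : 0 < c₂ := by positivity
  set η : ℝ := c₂ / (4 * K) with hηdef
  have hη : 0 < η := by positivity
  have hC := hNF.hC
  have hρ := hNF.hρ
  set r' : ℝ := min ρ (η / (C + 1)) with hr'def
  have hr' : 0 < r' := lt_min hρ (by positivity)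
  have hr'ρ : r' ≤ ρ := min_le_left _ _
  have hCr' : C * r' ≤ η := by
    have h : r' ≤ η / (C + 1) := min_le_right _ _
    rw [le_div_iff₀ (by positivity)] at h
    nlinarith
  have hq : 1 ≤ q := hPD.hq
  obtain ⟨K₁, hK₁1, hK₁⟩ := exists_K₁ hc₂ (pow_pos hr' q)
  obtain ⟨k₀, ε₁, hk₀, hε₁, hε₁ε, hinit⟩ := h3 d m q c₀ z₀ s b ρ ε C N₀ hPD hNF hOrb η K₁ hη
  obtain ⟨n₂, hn₂⟩ := exists_nat_ge (2 * Real.pi / r₁)
  refine ⟨min εb ε₁, max (max k₀ n₂) 1, lt_min hεb hε₁, ?_⟩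
  intro c hc α hα hfix n hn hn'
  have hcb : c ∈ ball c₀ εb := ball_subset_ball (min_le_left _ _) hc
  have hαb : α ∈ ball z₀ εb := ball_subset_ball (min_le_left _ _) hα
  have hc1 : c ∈ ball c₀ ε₁ := ball_subset_ball (min_le_right _ _) hc
  have hα1 : α ∈ ball z₀ ε₁ := ball_subset_ball (min_le_right _ _) hα
  have hcε : c ∈ ball c₀ ε := ball_subset_ball hε₁ε hc1
  have hαε : α ∈ ball z₀ ε := ball_subset_ball hε₁ε hα1
  obtain ⟨hu0, hu1, hini⟩ := hinit c hc1 α hα1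
  have hk₀n : k₀ ≤ n := le_trans (le_trans (le_max_left _ _) (le_max_left _ _)) hn
  have hn₂n : n₂ ≤ n := le_trans (le_trans (le_max_right _ _) (le_max_left _ _)) hn
  have hn1 : 1 ≤ n := le_trans (le_max_right _ _) hn
  have hnr : (1 : ℝ) ≤ n := by exact_mod_cast hn1
  have hpi := Real.pi_pos
  have hbnd : (n : ℝ) * ‖1 - Lq d m q c α‖ ≤ 2 * Real.pi := by linarith
  have hθ : ‖1 - Lq d m q c α‖ ≤ r₁ := by
    have h5 : 2 * Real.pi / r₁ ≤ n := hn₂.trans (by exact_mod_cast hn₂n)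
    rw [div_le_iff₀ hr₁] at h5
    by_contra hcon
    push Not at hcon
    have : (n : ℝ) * r₁ < n * ‖1 - Lq d m q c α‖ := by
      apply mul_lt_mul_of_pos_left hcon
      linarith
    linarith
  have hgs : ∀ k : ℕ, k ≤ n → c₁ * k ≤ ‖gs (Lq d m q c α) k‖ := by
    intro k hk
    have h6 := hgeom (1 - Lq d m q c α) hθ k (by
      have : (k : ℝ) * ‖1 - Lq d m q c α‖ ≤ n * ‖1 - Lq d m q c α‖ := by
        have : (k : ℝ) ≤ n := by exact_mod_cast hk
        gcongr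
      linarith)
    have h7 : 1 - (1 - Lq d m q c α) = Lq d m q c α := by ring
    rwa [h7] at h6
  have hkpos : ∀ k : ℕ, k₀ ≤ k → (0 : ℝ) < k := by
    intro k hk
    have : 1 ≤ k := by omega
    exact_mod_cast this
  have hsmall : ∀ k : ℕ, k₀ ≤ k → ∀ x : ℝ, 0 ≤ x → x ^ q ≤ 2 / (c₂ * k) → x ≤ r' := by
    intro k hk x hx hxq
    have h8 : x ^ q ≤ r' ^ q := hxq.trans (hK₁ k (hk₀.trans hk))
    exact (pow_le_pow_iff_left₀ hx hr'.le (by omega)).1 h8
  have hres := core h1 hNF hcε hαε hfix n k₀ (fun k => c₂ * k) (fun _ => η) K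
    (pow_L hbnd) (fun _ => hη.le) hk₀n hu0 hu1
    (fun k hk _ => mul_pos hc₂ (hkpos k hk))
    (fun k hk _ x hx hxq => (hsmall k hk x hx hxq).trans hr'ρ)
    (fun k hk _ x hx hxq => by
      have h9 := hsmall k hk x hx hxq
      have : C * x ≤ C * r' := by gcongr
      linarith)
    (fun k hk hkn => by
      have h10 : ∑ _j ∈ Finset.Ico k₀ k, η = (k - k₀) * η := by
        rw [Finset.sum_const, Nat.card_Ico, nsmul_eq_mul, Nat.cast_sub hk]
      rw [h10]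
      have h11 : ‖(s c α (P d (N₀ + m * k₀) c - α))⁻¹ + b c α * gs (Lq d m q c α) k₀‖ +
          ((k : ℝ) - k₀) * η ≤ η * k := by linarith
      have h12 : K * (‖(s c α (P d (N₀ + m * k₀) c - α))⁻¹ + b c α * gs (Lq d m q c α) k₀‖ +
          ((k : ℝ) - k₀) * η) ≤ K * (η * k) := by gcongr
      have h13 : K * (η * k) = c₂ * k / 4 := by
        rw [hηdef]; field_simp
      have h14 : ‖b c₀ z₀‖ / 2 * (c₁ * k) ≤ ‖b c α * gs (Lq d m q c α) k‖ := by
        rw [norm_mul]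
        have := hblow c hcb α hαb
        have := hgs k hkn
        gcongr
      have h15 : ‖b c₀ z₀‖ / 2 * (c₁ * k) = 2 * (c₂ * k) := by
        rw [hc₂def]; ring
      have h16 : 0 < c₂ * k := mul_pos hc₂ (hkpos k hk)
      show c₂ * k + _ ≤ _
      linarith)
  exact hres.2.1.trans hNF.hρ1

end Pool.Agent.Y350.PC
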